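import Mathlib
import Pool.Agent.Helper33.CV.Perm
import Pool.Agent.Helper67.TY.RunsData

/-!
MP_8ee768_co, project TH-Y': all isomorphisms between two small families of masks, by a search
through the images of the points `0, .., n - 1`.
-/

set_option autoImplicit false

namespace Pool.Agent.Helper44.TY

open Finset
open Pool.Agent.Helper89.CV (OddCover ofMask)
open Pool.Agent.Helper97.CV
open Pool.Agent.Helper79.CV
open Pool.Agent.Helper33.CV

/-- membership in a list of numbers -/
def memN (S : List ℕ) (m : ℕ) : Bool := S.any fun s => Nat.beq s m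

theorem memN_iff {S : List ℕ} {m : ℕ} : memN S m = true ↔ m ∈ S := by
  unfold memN
  rw [List.any_eq_true]
  constructor
  · rintro ⟨x, hx, h⟩
    rw [Nat.beq_eq] at h
    rwa [← h]
  · intro h
    exact ⟨m, h, by rw [Nat.beq_eq]⟩

/-- the masks whose largest point is `i` -/
def lev (S : List ℕ) (i : ℕ) : List ℕ :=
  S.filter fun m => Nat.ble (2 ^ i) m && Nat.blt m (2 ^ (i + 1))

/-- extensions of a partial map by the image of the next point -/
def extI (n : ℕ) (Si S' : List ℕ) (vs : List ℕ) : List (List ℕ) :=
  ((List.range n).filter fun v => !(memN vs v) &&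
    Si.all fun m => memN S' (pmM (vs ++ [v]) m)).map fun v => vs ++ [v]

/-- all partial isomorphisms on the points below `i` -/
def isoS (n : ℕ) (S S' : List ℕ) : ℕ → List (List ℕ)
  | 0 => [[]]
  | i + 1 => (isoS n S S' i).flatMap (extI n (lev S i) S')

theorem pmM_take (l : List ℕ) (n m : ℕ) (h : m < 2 ^ n) : pmM (l.take n) m = pmM l m := by
  refine Nat.eq_of_testBit_eq fun j => ?_
  rw [Bool.eq_iff_iff, testBit_pmM, testBit_pmM]
  constructor
  · rintro ⟨i, h1, h2⟩
    rw [List.getElem?_take] at h1
    split_ifs at h1 with h3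
    exact ⟨i, h1, h2⟩
  · rintro ⟨i, h1, h2⟩
    refine ⟨i, ?_, h2⟩
    have h3 : i < n := by
      by_contra h4
      rw [Nat.testBit_eq_false_of_lt (lt_of_lt_of_le h
        (Nat.pow_le_pow_right (by norm_num) (by omega)))] at h2
      exact absurd h2 (by simp)
    rw [List.getElem?_take, if_pos h3, h1]

theorem length_valL (σ : Equiv.Perm (Fin 13)) : (valL σ).length = 13 := by
  unfold valL
  exact List.length_ofFn

theorem valL_getElem? (σ : Equiv.Perm (Fin 13)) {i : ℕ} (hi : i < 13) :
    (valL σ)[i]? = some (σ ⟨i, hi⟩).val := by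
  unfold valL
  rw [List.getElem?_ofFn, dif_pos hi]

theorem mem_take_valL {σ : Equiv.Perm (Fin 13)} {i v : ℕ} (hi : i ≤ 13) :
    v ∈ (valL σ).take i ↔ ∃ (a : ℕ) (h : a < 13), a < i ∧ (σ ⟨a, h⟩).val = v := by
  rw [List.mem_iff_getElem?]
  constructor
  · rintro ⟨a, ha⟩
    rw [List.getElem?_take] at ha
    split_ifs at ha with h
    rw [valL_getElem? σ (show a < 13 by omega), Option.some.injEq] at ha
    exact ⟨a, by omega, h, ha⟩
  · rintro ⟨a, h, h1, h2⟩
    exact ⟨a, by rw [List.getElem?_take, if_pos h1, valL_getElem? σ h, h2]⟩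

/-- **completeness of the search** -/
theorem take_mem_isoS {n : ℕ} (hn : n ≤ 13) {S S' : List ℕ} {σ : Equiv.Perm (Fin 13)}
    (hσ : Keeps n σ) (hS : ∀ m ∈ S, pmM (valL σ) m ∈ S') :
    ∀ i, i ≤ n → (valL σ).take i ∈ isoS n S S' i := by
  intro i
  induction i with
  | zero =>
    intro _
    rw [List.take_zero]
    exact List.mem_singleton.2 rfl
  | succ i ih =>
    intro hi
    have h1 := ih (by omega)
    have e : (valL σ).take (i + 1) = (valL σ).take i ++ [(σ ⟨i, by omega⟩).val] := by
      rw [List.take_add_one, valL_getElem? σ (show i < 13 by omega)]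
      rfl
    show (valL σ).take (i + 1) ∈ (isoS n S S' i).flatMap (extI n (lev S i) S')
    rw [List.mem_flatMap]
    refine ⟨_, h1, ?_⟩
    unfold extI
    rw [List.mem_map]
    refine ⟨(σ ⟨i, by omega⟩).val, ?_, e.symm⟩
    rw [List.mem_filter]
    refine ⟨List.mem_range.2 (hσ ⟨i, by omega⟩ (by show i < n; omega)), ?_⟩
    rw [Bool.and_eq_true]
    constructor
    · rw [Bool.not_eq_true', ← Bool.not_eq_true, memN_iff, mem_take_valL (by omega)]
      rintro ⟨a, h, h2, h3⟩
      have h4 : (⟨a, h⟩ : Fin 13) = ⟨i, by omega⟩ := σ.injective (Fin.ext h3)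
      have h5 : a = i := congrArg Fin.val h4
      omega
    · rw [List.all_eq_true]
      intro m hm
      unfold lev at hm
      rw [List.mem_filter, Bool.and_eq_true] at hm
      have h6 : m < 2 ^ (i + 1) := by
        have := hm.2.2
        unfold Nat.blt at this
        exact Nat.le_of_ble_eq_true this
      rw [memN_iff, ← e, pmM_take _ _ _ h6]
      exact hS m hm.1

/-- final form: the search finds every isomorphism fixing the points from `n` on -/
theorem valL_mem_of_isoS {n k T T' : ℕ} (hn : n ≤ 13) {σ : Equiv.Perm (Fin 13)}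
    (hσ : Keeps n σ) (hfix : ∀ a : Fin 13, n ≤ a.val → σ a = a)
    (h : mapF σ (fam n k T) = fam n k T') {out : List (List ℕ)}
    (hout : (isoS n (decL (L n k) T) (decL (L n k) T') n).all
      (fun l => out.any fun l' => decide (l ++ (List.range' n (13 - n)) = l')) = true) :
    valL σ ∈ out := by
  have hS : ∀ m ∈ decL (L n k) T, pmM (valL σ) m ∈ decL (L n k) T' := by
    intro m hm
    have hL : m ∈ L n k := (sublist_decL' (L n k) T).subset hm
    have h1 : ofMask m ∈ fam n k T := by
      rw [← famL_decL, mem_famL]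
      exact ⟨m, hm, rfl⟩
    have h2 : ofMask (pmM (valL σ) m) ∈ fam n k T' := by
      rw [← h, ofMask_pmM]
      exact mem_mapF.2 h1
    rw [← famL_decL, mem_famL] at h2
    obtain ⟨m', hm', h3⟩ := h2
    have h4 : m' ∈ L n k := (sublist_decL' (L n k) T').subset hm'
    have hlt : ∀ a ∈ L n k, a < 2 ^ 13 := fun a ha =>
      lt_of_lt_of_le (lt_of_mem_L ha) (Nat.pow_le_pow_right (by norm_num) hn)
    rw [← ofMask_injOn (hlt _ h4) (hlt _ (pmM_mem_L hn hσ hL)) h3]
    exact hm'
  have h1 := take_mem_isoS hn hσ hS n le_rfl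
  rw [List.all_eq_true] at hout
  have h2 := hout _ h1
  rw [List.any_eq_true] at h2
  obtain ⟨l', hl', h3⟩ := h2
  rw [decide_eq_true_iff] at h3
  have h4 : valL σ = l' := by
    rw [← h3]
    refine List.ext_getElem? fun i => ?_
    by_cases hi : i < n
    · rw [List.getElem?_append_left (by rw [List.length_take, length_valL]; omega),
        List.getElem?_take, if_pos hi]
    · rw [List.getElem?_append_right (by rw [List.length_take, length_valL]; omega),
        List.length_take, length_valL, Nat.min_eq_left hn]
      by_cases h13 : i < 13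
      · rw [valL_getElem? σ h13, hfix ⟨i, h13⟩ (by show n ≤ i; omega),
          List.getElem?_range' (by omega), Option.some.injEq]
        show i = n + 1 * (i - n)
        omega
      · rw [List.getElem?_eq_none (by rw [length_valL]; omega),
          List.getElem?_eq_none (by rw [List.length_range']; omega)]
  rw [h4]
  exact hl'
where
  sublist_decL' (ms : List ℕ) (N : ℕ) : (decL ms N).Sublist ms := by
    induction ms generalizing N with
    | nil => exact List.Sublist.refl _
    | cons m ms ih =>
      have e : decL (m :: ms) N =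
          bif Nat.beq (N % 2) 1 then m :: decL ms (N / 2) else decL ms (N / 2) := rfl
      rw [e]
      cases Nat.beq (N % 2) 1
      · exact (ih _).cons _
      · exact (ih _).cons_cons _

end Pool.Agent.Helper44.TY
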