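import Mathlib
import Pool.Agent.Helper44.TY.Iso
import Pool.Agent.Helper79.CV.FCheck

/-!
MP_8ee768_co, project TH-Y': all isomorphisms between two small systems of triples, by a search
with packed partial maps. The partial map `σ` on the points below `i` is the number
`∑ 2 ^ σ a * (2 ^ (16 a) + 2 ^ 240)`: sixteen bits for every point, the set of used values on top.
-/

set_option autoImplicit false
set_option maxRecDepth 100000
set_option exponentiation.threshold 5000

namespace Pool.Agent.Helper44.TY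

open Finset
open Pool.Agent.Helper89.CV (OddCover ofMask)
open Pool.Agent.Helper97.CV
open Pool.Agent.Helper79.CV
open Pool.Agent.Helper33.CV

/-- the field of the point `a` -/
def fldP (V a : ℕ) : ℕ := Nat.land (Nat.shiftRight V (Nat.mul 16 a)) 65535

/-- one candidate value -/
def tryP (C : ℕ) (ps : List (ℕ × ℕ)) (V w : ℕ) : Bool :=
  ps.all fun p => Nat.testBit C (Nat.add (Nat.add (fldP V p.1) (fldP V p.2)) w)

/-- evaluate the argument first -/
noncomputable def frB (f : ℕ → Bool) (e : ℕ) : Bool :=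
  @Nat.rec (fun _ => Bool) (f 0) (fun m _ => f (Nat.succ m)) e

theorem frB_eq (f : ℕ → Bool) (e : ℕ) : frB f e = f e := by
  cases e <;> rfl

/-- the partial map `V` with the value `v` at the point `i` -/
def nxV (i V v : ℕ) : ℕ :=
  Nat.add V (Nat.mul (Nat.pow 2 v) (Nat.add (Nat.pow 2 (Nat.mul 16 i)) (Nat.pow 2 240)))

theorem nxV_eq (i V v : ℕ) : nxV i V v = V + 2 ^ v * (2 ^ (16 * i) + 2 ^ 240) := rfl

/-- one candidate value of the point `i`, continued by `g` -/
noncomputable def stV (C : ℕ) (ps : List (ℕ × ℕ)) (i V : ℕ) (g : ℕ → Bool) (v : ℕ) (ih : Bool) :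
    Bool :=
  @Bool.rec (fun _ => Bool)
    (@Bool.rec (fun _ => Bool) ih
      (@Bool.rec (fun _ => Bool) false ih (frB g (nxV i V v)))
      (tryP C ps V (Nat.pow 2 v)))
    ih (Nat.testBit V (Nat.add 240 v))

theorem stV_ih {C : ℕ} {ps : List (ℕ × ℕ)} {i V : ℕ} {g : ℕ → Bool} {v : ℕ} {ih : Bool}
    (h : stV C ps i V g v ih = true) : ih = true := by
  unfold stV at h
  generalize Nat.testBit V (Nat.add 240 v) = a at h
  generalize tryP C ps V (Nat.pow 2 v) = b at h
  generalize frB g (nxV i V v) = c at h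
  revert h
  cases a <;> cases b <;> cases c <;> cases ih <;> decide

theorem stV_get {C : ℕ} {ps : List (ℕ × ℕ)} {i V : ℕ} {g : ℕ → Bool} {v : ℕ} {ih : Bool}
    (h : stV C ps i V g v ih = true) (h1 : Nat.testBit V (240 + v) = false)
    (h2 : tryP C ps V (2 ^ v) = true) : g (nxV i V v) = true := by
  unfold stV at h
  have h1' : Nat.testBit V (Nat.add 240 v) = false := h1
  have h2' : tryP C ps V (Nat.pow 2 v) = true := h2
  rw [h1', h2'] at h
  rw [← frB_eq g]
  generalize frB g (nxV i V v) = c at h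
  revert h
  cases c <;> cases ih <;> decide

/-- the candidate values of the point `i`, continued by `g` -/
noncomputable def allV (C : ℕ) (ps : List (ℕ × ℕ)) (i V : ℕ) (g : ℕ → Bool) : ℕ → Bool :=
  @Nat.rec (fun _ => Bool) true fun v ih => stV C ps i V g v ih

theorem allV_succ (C : ℕ) (ps : List (ℕ × ℕ)) (i V : ℕ) (g : ℕ → Bool) (n : ℕ) :
    allV C ps i V g (n + 1) = stV C ps i V g n (allV C ps i V g n) := rfl

/-- the search: `ls` = the pairs of the remaining points, `i` = the next point -/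
noncomputable def srP (n C : ℕ) (out : List ℕ) : List (List (ℕ × ℕ)) → ℕ → ℕ → Bool
  | [], _, V => out.any fun o => Nat.beq V o
  | ps :: ls, i, V => allV C ps i V (srP n C out ls (Nat.succ i)) n

theorem allV_get {C : ℕ} {ps : List (ℕ × ℕ)} {i V : ℕ} {g : ℕ → Bool} {n : ℕ}
    (h : allV C ps i V g n = true) {v : ℕ} (hv : v < n) (h1 : Nat.testBit V (240 + v) = false)
    (h2 : tryP C ps V (2 ^ v) = true) : g (nxV i V v) = true := by
  induction n with
  | zero => exact absurd hv (Nat.not_lt_zero v)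
  | succ n ih =>
    rw [allV_succ] at h
    by_cases hvn : v = n
    · subst hvn
      exact stV_get h h1 h2
    · exact ih (stV_ih h) (by omega)

/-- the packed map -/
def pkV (f : ℕ → ℕ) : ℕ → ℕ
  | 0 => 0
  | i + 1 => pkV f i + 2 ^ f i * (2 ^ (16 * i) + 2 ^ 240)

/-- the low part of the packed map -/
def pkL (f : ℕ → ℕ) : ℕ → ℕ
  | 0 => 0
  | i + 1 => pkL f i + 2 ^ f i * 2 ^ (16 * i)

/-- the used values -/
def pkU (f : ℕ → ℕ) : ℕ → ℕ
  | 0 => 0
  | i + 1 => pkU f i + 2 ^ f i

theorem pkV_eq (f : ℕ → ℕ) (i : ℕ) : pkV f i = pkL f i + pkU f i * 2 ^ 240 := by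
  induction i with
  | zero =>
    show 0 = 0 + 0 * 2 ^ 240
    rw [Nat.zero_mul]
  | succ i ih =>
    have e1 : pkV f (i + 1) = pkV f i + 2 ^ f i * (2 ^ (16 * i) + 2 ^ 240) := rfl
    have e2 : pkL f (i + 1) = pkL f i + 2 ^ f i * 2 ^ (16 * i) := rfl
    have e3 : pkU f (i + 1) = pkU f i + 2 ^ f i := rfl
    rw [e1, e2, e3, ih]
    generalize (2 : ℕ) ^ 240 = W
    ring

theorem pkL_lt {f : ℕ → ℕ} {n : ℕ} (hf : ∀ a < n, f a < 16) {i : ℕ} (hi : i ≤ n) :
    pkL f i < 2 ^ (16 * i) := by
  induction i with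
  | zero => exact Nat.one_pos
  | succ i ih =>
    have e2 : pkL f (i + 1) = pkL f i + 2 ^ f i * 2 ^ (16 * i) := rfl
    have h1 := ih (by omega)
    have h2 : 2 ^ f i < 2 ^ 16 := Nat.pow_lt_pow_right (by norm_num) (hf i (by omega))
    have h3 : (2 ^ f i + 1) * 2 ^ (16 * i) ≤ 2 ^ 16 * 2 ^ (16 * i) := Nat.mul_le_mul_right _ h2
    rw [e2, show 16 * (i + 1) = 16 + 16 * i by ring, pow_add]
    rw [Nat.add_mul, Nat.one_mul] at h3
    omega

theorem div_pkL {f : ℕ → ℕ} {n : ℕ} (hf : ∀ a < n, f a < 16) {i a : ℕ} (hi : i ≤ n)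
    (ha : a < i) : pkL f i / 2 ^ (16 * a) % 2 ^ 16 = 2 ^ f a := by
  induction i with
  | zero => exact absurd ha (Nat.not_lt_zero a)
  | succ i ih =>
    have e2 : pkL f (i + 1) = pkL f i + 2 ^ f i * 2 ^ (16 * i) := rfl
    by_cases h : a = i
    · subst h
      have h1 := pkL_lt hf (show a ≤ n by omega)
      rw [e2, Nat.add_mul_div_right _ _ (Nat.two_pow_pos _), Nat.div_eq_of_lt h1, Nat.zero_add]
      exact Nat.mod_eq_of_lt (Nat.pow_lt_pow_right (by norm_num) (hf a (by omega)))
    · have h1 := ih (by omega) (by omega)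
      have h2 : 16 * i = 16 * a + 16 * (i - a) := by omega
      have h3 : 2 ^ f i * 2 ^ (16 * i) = 2 ^ (16 * a) * (2 ^ 16 * (2 ^ f i * 2 ^ (16 * (i - a - 1)))) := by
        rw [h2, pow_add]
        have h4 : 16 * (i - a) = 16 + 16 * (i - a - 1) := by omega
        rw [h4, pow_add]
        ring
      rw [e2, h3, Nat.add_mul_div_left _ _ (Nat.two_pow_pos _), Nat.add_mul_mod_self_left]
      exact h1

theorem fldP_pkV {f : ℕ → ℕ} {n : ℕ} (hf : ∀ a < n, f a < 16) (hn : n ≤ 15) {i a : ℕ}
    (hi : i ≤ n) (ha : a < i) : fldP (pkV f i) a = 2 ^ f a := by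
  have e : fldP (pkV f i) a = (pkV f i >>> (16 * a)) &&& 65535 := rfl
  have e2 : (65535 : ℕ) = 2 ^ 16 - 1 := by norm_num
  have h2 : 240 = 16 * a + 16 * (15 - a) := by omega
  have h3 : pkU f i * 2 ^ 240 = 2 ^ (16 * a) * (2 ^ 16 * (pkU f i * 2 ^ (16 * (15 - a - 1)))) := by
    rw [h2, pow_add]
    have h4 : 16 * (15 - a) = 16 + 16 * (15 - a - 1) := by omega
    rw [h4, pow_add]
    ring
  rw [e, e2, Nat.and_two_pow_sub_one_eq_mod, Nat.shiftRight_eq_div_pow, pkV_eq, h3,
    Nat.add_mul_div_left _ _ (Nat.two_pow_pos _), Nat.add_mul_mod_self_left]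
  exact div_pkL hf hi ha

theorem testBit_pkU {f : ℕ → ℕ} {n : ℕ} (hinj : ∀ a < n, ∀ b < n, f a = f b → a = b) {i : ℕ}
    (hi : i ≤ n) (v : ℕ) : (pkU f i).testBit v = true ↔ ∃ a < i, f a = v := by
  induction i generalizing v with
  | zero =>
    have e : pkU f 0 = 0 := rfl
    rw [e, Nat.zero_testBit]
    simp
  | succ i ih =>
    have e3 : pkU f (i + 1) = pkU f i + 2 ^ f i := rfl
    have h0 : (pkU f i).testBit (f i) = false := by
      rw [Bool.eq_false_iff, Ne, ih (by omega)]
      rintro ⟨a, ha, h⟩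
      have := hinj a (by omega) i (by omega) h
      omega
    rw [e3, Pool.Agent.Helper91.TY.add_two_pow_eq_xor h0, Nat.testBit_xor, Nat.testBit_two_pow]
    constructor
    · intro h
      by_cases h1 : f i = v
      · exact ⟨i, Nat.lt_succ_self i, h1⟩
      · rw [decide_eq_false h1, Bool.xor_false, ih (by omega)] at h
        obtain ⟨a, ha, h2⟩ := h
        exact ⟨a, by omega, h2⟩
    · rintro ⟨a, ha, h⟩
      by_cases h1 : f i = v
      · rw [← h1, h0, decide_eq_true rfl]
        rfl
      · rw [decide_eq_false h1, Bool.xor_false, ih (by omega)]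
        refine ⟨a, ?_, h⟩
        by_contra h2
        have h3 : a = i := by omega
        rw [h3] at h
        exact h1 h

/-- **completeness of the search** -/
theorem pkV_mem_srP {n C : ℕ} (hn : n ≤ 15) {f : ℕ → ℕ} {out : List ℕ}
    (hf : ∀ a < n, f a < n) (hinj : ∀ a < n, ∀ b < n, f a = f b → a = b)
    (ls : List (List (ℕ × ℕ))) (i : ℕ) (hi : i + ls.length = n)
    (hS : ∀ t ps, ls[t]? = some ps → ∀ p ∈ ps, p.1 < i + t ∧ p.2 < i + t ∧
      Nat.testBit C (2 ^ f p.1 + 2 ^ f p.2 + 2 ^ f (i + t)) = true)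
    (h : srP n C out ls i (pkV f i) = true) : pkV f n ∈ out := by
  have hf16 : ∀ a < n, f a < 16 := fun a ha => by
    have := hf a ha
    omega
  induction ls generalizing i with
  | nil =>
    have e : srP n C out [] i (pkV f i) = out.any fun o => Nat.beq (pkV f i) o := rfl
    rw [e, List.any_eq_true] at h
    obtain ⟨o, ho, h1⟩ := h
    rw [Nat.beq_eq] at h1
    rw [List.length_nil, Nat.add_zero] at hi
    rw [← hi, h1]
    exact ho
  | cons ps ls ih =>
    rw [List.length_cons] at hi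
    have e : srP n C out (ps :: ls) i (pkV f i) =
      allV C ps i (pkV f i) (srP n C out ls (Nat.succ i)) n := rfl
    rw [e] at h
    have h2 : pkL f i < 2 ^ 240 := by
      refine lt_of_lt_of_le (pkL_lt hf16 (show i ≤ n by omega)) ?_
      exact Nat.pow_le_pow_right (by norm_num) (by omega)
    have h3 := allV_get h (hf i (by omega)) (by
      rw [pkV_eq, Nat.add_comm (pkL f i), Nat.mul_comm, Nat.testBit_two_pow_mul_add _ h2,
        if_neg (by omega)]
      rw [Nat.add_sub_cancel_left, Bool.eq_false_iff, Ne, testBit_pkU hinj (by omega)]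
      rintro ⟨a, ha, h⟩
      have := hinj a (by omega) i (by omega) h
      omega) (by
      unfold tryP
      rw [List.all_eq_true]
      intro p hp
      obtain ⟨h2, h3, h4⟩ := hS 0 ps List.getElem?_cons_zero p hp
      rw [Nat.add_zero] at h2 h3 h4
      show Nat.testBit C (fldP (pkV f i) p.1 + fldP (pkV f i) p.2 + 2 ^ f i) = true
      rw [fldP_pkV hf16 hn (by omega) h2, fldP_pkV hf16 hn (by omega) h3]
      exact h4)
    refine ih (i + 1) (by omega) ?_ h3
    intro t qs hqs p hp
    obtain ⟨a1, a2, a3⟩ := hS (t + 1) qs (by rw [List.getElem?_cons_succ]; exact hqs) p hp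
    rw [show i + (t + 1) = i + 1 + t by omega] at a1 a2 a3
    exact ⟨a1, a2, a3⟩

/-- the value of a list -/
def valP (l : List ℕ) (a : ℕ) : ℕ := l.getD a 0

/-- the list `l` is a list of 13 values, those from `n` on fixed -/
def okP (n : ℕ) (l : List ℕ) : Bool :=
  Nat.beq l.length 13 && ((List.range n).all (fun a => Nat.blt (valP l a) n) &&
    (List.range (13 - n)).all (fun a => Nat.beq (valP l (n + a)) (n + a)))

theorem pkL_inj {f g : ℕ → ℕ} {n : ℕ} (hn : n ≤ 15) (hf : ∀ a < n, f a < n)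
    (hg : ∀ a < n, g a < n) (h : pkV f n = pkV g n) : ∀ a < n, f a = g a := by
  intro a ha
  have hf16 : ∀ a < n, f a < 16 := fun a ha => by
    have := hf a ha
    omega
  have hg16 : ∀ a < n, g a < 16 := fun a ha => by
    have := hg a ha
    omega
  have h1 := fldP_pkV hf16 hn le_rfl ha
  rw [h, fldP_pkV hg16 hn le_rfl ha] at h1
  exact (Nat.pow_right_injective (le_refl 2) h1).symm

theorem ofMask_three : ∀ x y z : Fin 13, x ≠ y → x ≠ z → y ≠ z →
    ofMask (2 ^ x.val + 2 ^ y.val + 2 ^ z.val) = {x, y, z} := by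
  decide +kernel

theorem three_lt {n : ℕ} {x y z : ℕ} (hx : x < n) (hy : y < n) (hz : z < n) (hxy : x ≠ y)
    (hxz : x ≠ z) (hyz : y ≠ z) : 2 ^ x + 2 ^ y + 2 ^ z < 2 ^ n := by
  have h0 : ∀ {a b : ℕ}, a < b → 2 ^ a + 2 ^ a ≤ 2 ^ b := fun {a b} h => by
    have : 2 ^ (a + 1) ≤ 2 ^ b := Nat.pow_le_pow_right (by norm_num) h
    rw [pow_succ] at this
    omega
  have hp := fun a => Nat.two_pow_pos a
  have key : ∀ {a b c : ℕ}, a < b → b < c → c < n → 2 ^ a + 2 ^ b + 2 ^ c < 2 ^ n := by
    intro a b c h1 h2 h3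
    have a1 := h0 h1
    have a2 := h0 h2
    have a3 := h0 h3
    have a4 := hp a
    omega
  rcases Nat.lt_or_gt_of_ne hxy with h1 | h1 <;> rcases Nat.lt_or_gt_of_ne hyz with h2 | h2 <;>
    rcases Nat.lt_or_gt_of_ne hxz with h3 | h3
  · exact key h1 h2 hz
  · omega
  · have := key h3 h2 hy
    omega
  · have := key h3 h1 hy
    omega
  · have := key h1 h3 hz
    omega
  · have := key h2 h3 hx
    omega
  · omega
  · have := key h2 h1 hx
    omega

/-- final form: the search finds every isomorphism of systems of triples fixing the points from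
`n` on -/
theorem valL_mem_of_isoP {n T T' : ℕ} (hn : n ≤ 13) {σ : Equiv.Perm (Fin 13)}
    (hσ : Keeps n σ) (hfix : ∀ a : Fin 13, n ≤ a.val → σ a = a)
    (h : mapF σ (fam n 3 T) = fam n 3 T') {lv : List (List (ℕ × ℕ))}
    (hlen : lv.length = n)
    (hlv : ∀ i < n, ∀ p ∈ lv.getD i [], p.1 < p.2 ∧ p.2 < i ∧
      2 ^ p.1 + 2 ^ p.2 + 2 ^ i ∈ decL (L n 3) T)
    {out : List (List ℕ)} (hok : out.all (okP n) = true)
    (hout : frB (fun C => srP n C (out.map fun l => pkV (valP l) n) lv 0 0) (cubF n 3 T') =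
      true) :
    valL σ ∈ out := by
  set f : ℕ → ℕ := fun a => valP (valL σ) a with hfdef
  have hval : ∀ (a : ℕ) (ha : a < 13), f a = (σ ⟨a, ha⟩).val := by
    intro a ha
    show (valL σ).getD a 0 = _
    rw [List.getD_eq_getElem?_getD, valL_getElem? σ ha]
    rfl
  have hf : ∀ a < n, f a < n := by
    intro a ha
    rw [hval a (by omega)]
    exact hσ _ ha
  have hinj : ∀ a < n, ∀ b < n, f a = f b → a = b := by
    intro a ha b hb hab
    rw [hval a (by omega), hval b (by omega)] at hab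
    exact congrArg Fin.val (σ.injective (Fin.ext hab))
  rw [frB_eq] at hout
  have hmem := pkV_mem_srP (C := cubF n 3 T') (by omega) hf hinj lv 0 (by omega) (by
    intro i ps hps p hp
    have hi : i < n := by
      rw [← hlen]
      exact (List.getElem?_eq_some_iff.1 hps).1
    rw [Nat.zero_add]
    obtain ⟨h1, h2, h3⟩ := hlv i hi p (by
      rw [List.getD_eq_getElem?_getD, hps]
      exact hp)
    refine ⟨by omega, h2, ?_⟩
    have h4 : ofMask (2 ^ p.1 + 2 ^ p.2 + 2 ^ i) ∈ fam n 3 T := by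
      rw [← famL_decL, mem_famL]
      exact ⟨_, h3, rfl⟩
    have h5 : mapS σ (ofMask (2 ^ p.1 + 2 ^ p.2 + 2 ^ i)) ∈ fam n 3 T' := by
      rw [← h]
      exact mem_mapF.2 h4
    have hset := fun (x y z : ℕ) (hx : x < 13) (hy : y < 13) (hz : z < 13) =>
      ofMask_three ⟨x, hx⟩ ⟨y, hy⟩ ⟨z, hz⟩
    have hp1 : p.1 < 13 := by omega
    have hp2 : p.2 < 13 := by omega
    have hi13 : i < 13 := by omega
    have hneq : ∀ {x y : ℕ} {hx : x < 13} {hy : y < 13}, x ≠ y →
        (⟨x, hx⟩ : Fin 13) ≠ ⟨y, hy⟩ := fun h e => h (congrArg Fin.val e)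
    rw [hset _ _ _ hp1 hp2 hi13 (hneq (by omega)) (hneq (by omega)) (hneq (by omega))] at h5
    have h6 : mapS σ {(⟨p.1, hp1⟩ : Fin 13), ⟨p.2, hp2⟩, ⟨i, hi13⟩} =
        ofMask (2 ^ f p.1 + 2 ^ f p.2 + 2 ^ f i) := by
      have e1 := hinj p.1 (by omega) p.2 (by omega)
      have e2 := hinj p.1 (by omega) i hi
      have e3 := hinj p.2 (by omega) i hi
      rw [hset (f p.1) (f p.2) (f i) (by have := hf p.1 (by omega); omega)
        (by have := hf p.2 (by omega); omega) (by have := hf i hi; omega)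
        (hneq fun e => by have := e1 e; omega) (hneq fun e => by have := e2 e; omega)
        (hneq fun e => by have := e3 e; omega)]
      unfold mapS
      rw [map_insert, map_insert, map_singleton]
      congr 1
      · exact Fin.ext (hval p.1 hp1).symm
      · congr 1
        · exact Fin.ext (hval p.2 hp2).symm
        · congr 1
          exact Fin.ext (hval i hi13).symm
    rw [h6] at h5
    have h7 : 2 ^ f p.1 + 2 ^ f p.2 + 2 ^ f i < 2 ^ n :=
      three_lt (hf _ (by omega)) (hf _ (by omega)) (hf _ hi)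
        (fun e => by have := hinj _ (by omega) _ (by omega) e; omega)
        (fun e => by have := hinj _ (by omega) _ (by omega) e; omega)
        (fun e => by have := hinj _ (by omega) _ (by omega) e; omega)
    rw [← cub_fam hn, testBit_cub _ h7, decide_eq_true_eq]
    exact h5) hout
  rw [List.mem_map] at hmem
  obtain ⟨l, hl, h4⟩ := hmem
  have h3 := (List.all_eq_true.1 hok) l hl
  unfold okP at h3
  rw [Bool.and_eq_true, Bool.and_eq_true, Nat.beq_eq, List.all_eq_true, List.all_eq_true] at h3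
  obtain ⟨h5, h6, h7⟩ := h3
  have h8 : ∀ a < n, valP l a < n := fun a ha => by
    have := h6 a (List.mem_range.2 ha)
    rwa [Nat.blt_eq] at this
  have h9 := pkL_inj (by omega) hf h8 h4.symm
  have h10 : valL σ = l := by
    refine List.ext_getElem? fun a => ?_
    by_cases ha : a < 13
    · have h11 : l[a]? = some (valP l a) := by
        unfold valP
        rw [List.getD_eq_getElem?_getD, List.getElem?_eq_getElem (by omega)]
        rfl
      rw [valL_getElem? σ ha, h11]
      congr 1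
      by_cases han : a < n
      · rw [← h9 a han, hval a ha]
      · have h12 := h7 (a - n) (List.mem_range.2 (by omega))
        rw [Nat.beq_eq, show n + (a - n) = a by omega] at h12
        rw [h12, hfix ⟨a, ha⟩ (not_lt.1 han)]
    · rw [List.getElem?_eq_none (by rw [length_valL]; omega), List.getElem?_eq_none (by omega)]
  rw [h10]
  exact hl

end Pool.Agent.Helper44.TY
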