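import Pool.Agent.Helper79.CV.FLane
import Pool.Agent.Helper44.TY.IsoP

/-!
MP_8ee768_co, project TH-Y': the automorphisms of the two near-STS `repA`, `repB` are exactly
the lists `autA`, `autB` of helper67, and the two systems are not isomorphic.
-/

set_option autoImplicit false
set_option maxRecDepth 100000
set_option exponentiation.threshold 5000

namespace Pool.Agent.Helper44.TY

open Finset
open Pool.Agent.Helper79.CV
open Pool.Agent.Helper33.CV
open Pool.Agent.Helper67.TY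

/-- the triples of `repA` by their largest point -/
def lvA : List (List (ℕ × ℕ)) :=
  [[], [], [], [(0, 1)], [(0, 2)], [(1, 2), (3, 4)], [(2, 3)], [(1, 4), (0, 6)], [(0, 5), (1, 6), (2, 7)], [(5, 6), (3, 7), (4, 8)], [(4, 6), (5, 7), (3, 8), (0, 9), (1, 9), (2, 9)]]

/-- the triples of `repB` by their largest point -/
def lvB : List (List (ℕ × ℕ)) :=
  [[], [], [(0, 1)], [], [(1, 3)], [(0, 3), (2, 4)], [(0, 4)], [(1, 5), (2, 6)], [(2, 3), (1, 6), (0, 7)], [(3, 6), (4, 7), (5, 8)], [(5, 6), (3, 7), (4, 8), (0, 9), (1, 9), (2, 9)]]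

theorem lvA_ok : ∀ i < 11, ∀ p ∈ lvA.getD i [], p.1 < p.2 ∧ p.2 < i ∧
    2 ^ p.1 + 2 ^ p.2 + 2 ^ i ∈ decL (L 11 3) repA := by
  decide +kernel

theorem lvB_ok : ∀ i < 11, ∀ p ∈ lvB.getD i [], p.1 < p.2 ∧ p.2 < i ∧
    2 ^ p.1 + 2 ^ p.2 + 2 ^ i ∈ decL (L 11 3) repB := by
  decide +kernel

theorem isoAA : frB (fun C => srP 11 C (autA.map fun l => pkV (valP l) 11) lvA 0 0)
    (cubF 11 3 repA) = true := by
  decide +kernel

theorem isoBB : frB (fun C => srP 11 C (autB.map fun l => pkV (valP l) 11) lvB 0 0)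
    (cubF 11 3 repB) = true := by
  decide +kernel

theorem isoAB : frB (fun C => srP 11 C (([] : List (List ℕ)).map fun l => pkV (valP l) 11)
    lvA 0 0) (cubF 11 3 repB) = true := by
  decide +kernel

theorem okA : autA.all (okP 11) = true := by decide +kernel

theorem okB : autB.all (okP 11) = true := by decide +kernel

theorem keeps_fix {ρ : Equiv.Perm (Fin 13)} (h11 : ρ 11 = 11) (h12 : ρ 12 = 12) :
    Keeps 11 ρ ∧ ∀ a : Fin 13, 11 ≤ a.val → ρ a = a := by
  have hfix : ∀ a : Fin 13, 11 ≤ a.val → ρ a = a := by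
    intro a ha
    have := a.isLt
    have h3 : a.val = 11 ∨ a.val = 12 := by omega
    rcases h3 with h3 | h3
    · have h4 : a = 11 := Fin.ext h3
      rw [h4, h11]
    · have h4 : a = 12 := Fin.ext h3
      rw [h4, h12]
  refine ⟨fun a ha => ?_, hfix⟩
  by_contra h1
  have h2 := hfix (ρ a) (by omega)
  have h3 := ρ.injective h2
  rw [h3] at h1
  exact h1 ha

/-- all automorphisms of REP(A) -/
theorem autA_complete (ρ : Equiv.Perm (Fin 13)) (h11 : ρ 11 = 11) (h12 : ρ 12 = 12)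
    (h : mapF ρ (fam 11 3 repA) = fam 11 3 repA) : valL ρ ∈ autA :=
  valL_mem_of_isoP (by norm_num) (keeps_fix h11 h12).1 (keeps_fix h11 h12).2 h rfl
    lvA_ok okA isoAA

/-- all automorphisms of REP(B) -/
theorem autB_complete (ρ : Equiv.Perm (Fin 13)) (h11 : ρ 11 = 11) (h12 : ρ 12 = 12)
    (h : mapF ρ (fam 11 3 repB) = fam 11 3 repB) : valL ρ ∈ autB :=
  valL_mem_of_isoP (by norm_num) (keeps_fix h11 h12).1 (keeps_fix h11 h12).2 h rfl
    lvB_ok okB isoBB

/-- REP(A) and REP(B) are not isomorphic -/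
theorem repA_ne_repB (ρ : Equiv.Perm (Fin 13)) (h11 : ρ 11 = 11) (h12 : ρ 12 = 12) :
    mapF ρ (fam 11 3 repA) ≠ fam 11 3 repB := fun h =>
  List.not_mem_nil (valL_mem_of_isoP (by norm_num) (keeps_fix h11 h12).1 (keeps_fix h11 h12).2 h
    rfl lvA_ok rfl isoAB)

theorem repB_ne_repA (ρ : Equiv.Perm (Fin 13)) (h11 : ρ 11 = 11) (h12 : ρ 12 = 12) :
    mapF ρ (fam 11 3 repB) ≠ fam 11 3 repA := fun h => by
  refine repA_ne_repB ρ.symm (by rw [Equiv.symm_apply_eq, h11])
    (by rw [Equiv.symm_apply_eq, h12]) ?_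
  rw [← h, mapF_symm_mapF]

end Pool.Agent.Helper44.TY
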