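import Mathlib
import Pool.Agent.Helper79.CV.FLane
import Pool.Agent.Helper44.TY.Iso

/-!
MP_8ee768_co, project TH-Y', stages F and T: the one-link tables (`TabP`) from the
classification by flags: for every representative and every point of degree 19 one permutation
to the standard frame, then all images under the automorphisms of the link.
-/

set_option autoImplicit false

namespace Pool.Agent.Helper44.TY

open Finset
open Pool.Agent.Helper89.CV (OddCover ofMask)
open Pool.Agent.Helper97.CV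
open Pool.Agent.Helper79.CV
open Pool.Agent.Helper33.CV
open Pool.Agent.Helper82.TY (below)

/-- the list of (class, entry) pairs of the first `n` classes -/
def tabOf (n : ℕ) (ents : ℕ → List ℕ) : List (ℕ × ℕ) :=
  (List.range n).flatMap fun j => (ents j).map fun e => (j, e)

theorem mem_tabOf {n : ℕ} {ents : ℕ → List ℕ} {k e : ℕ} :
    (k, e) ∈ tabOf n ents ↔ k < n ∧ e ∈ ents k := by
  unfold tabOf
  rw [List.mem_flatMap]
  constructor
  · rintro ⟨j, hj, h⟩
    rw [List.mem_map] at h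
    obtain ⟨e', he', h1⟩ := h
    rw [Prod.mk.injEq] at h1
    obtain ⟨h1, h2⟩ := h1
    subst h1 h2
    exact ⟨List.mem_range.1 hj, he'⟩
  · rintro ⟨h1, h2⟩
    exact ⟨k, List.mem_range.2 h1, List.mem_map.2 ⟨e, h2, rfl⟩⟩

/-- completeness of the short list of classes from the long one -/
theorem clsOK_of_rootOK {cap cap' : ℕ} (hcap : cap' ≤ cap) {reps6 reps : List ℕ}
    (hR : RootOK cap (fun _ => True) reps6)
    (h : ∀ r ∈ reps6, r ∈ reps ∨ 114 + cap' < 2 * (fam 12 4 r).card) : ClsOK cap' reps := by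
  intro D hD hc
  obtain ⟨σ, -, r, hr, hσ⟩ := hR D hD (by omega) trivial
  rcases h r hr with h1 | h1
  · obtain ⟨j, hj⟩ := List.mem_iff_getElem?.1 h1
    exact ⟨j, r, hj, σ, hσ⟩
  · rw [← hσ, card_mapF] at h1
    omega

/-- an isomorphism onto a family on `{0, .., 11}` fixes `12` -/
theorem perm_fix {D : Finset (Finset (Fin 13))} (hD : OddFam 3 (below 12) D)
    {σ : Equiv.Perm (Fin 13)} {r : ℕ} (h : mapF σ D = fam 12 4 r) : σ 12 = 12 := by
  by_contra hne
  set c := σ.symm 12 with hc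
  have hc12 : c ≠ 12 := by
    intro h1
    rw [hc, Equiv.symm_apply_eq] at h1
    exact hne h1.symm
  have hcb : c ∈ below 12 := by
    rw [below_twelve]
    exact mem_erase.2 ⟨hc12, mem_univ c⟩
  -- a triple through `c`
  obtain ⟨s, hs1, hs2, hs3⟩ : ∃ s : Finset (Fin 13), c ∈ s ∧ s ⊆ below 12 ∧ s.card = 3 := by
    have h2 : 2 ≤ ((below 12).erase c).card := by
      rw [card_erase_of_mem hcb]
      have : (below 12).card = 12 := by decide
      omega
    obtain ⟨t, ht, ht2⟩ := exists_subset_card_eq h2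
    refine ⟨insert c t, mem_insert_self c t, ?_, ?_⟩
    · rw [insert_subset_iff]
      exact ⟨hcb, ht.trans (erase_subset _ _)⟩
    · rw [card_insert_of_notMem fun h3 => (mem_erase.1 (ht h3)).1 rfl, ht2]
  have h3 : 0 < cnt D s := (hD.2 s hs2 hs3).pos
  unfold cnt at h3
  rw [card_pos] at h3
  obtain ⟨b, hb⟩ := h3
  rw [mem_filter] at hb
  have h5 : mapS σ b ∈ fam 12 4 r := by
    rw [← h]
    exact mem_mapF.2 hb.1
  have h6 := mk_lt_iff.1 (sub_of_mem_fam (by norm_num) h5).1 12 (by
    rw [mem_mapS']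
    exact hb.2 hs1)
  exact absurd h6 (by decide)

/-- code of the image of the masks `ms` under the list `l` -/
def imgC (n k : ℕ) (ms : List ℕ) (l : List ℕ) : ℕ := encL n k (ms.map (pmM l))

/-- the masks without the point `11` -/
def lowM (ms : List ℕ) : List ℕ := ms.filter fun m => Nat.blt m 2048

/-- the check of one flag -/
def flagOK (T T' : ℕ) (auts : List (List ℕ)) (ms es : List ℕ) (p : ℕ) (l : List ℕ) : Bool :=
  okPerm l && (Nat.beq (l.getD 12 0) 12 && (Nat.beq (l.getD p 0) 11 &&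
    (Nat.beq (Nat.shiftRight (imgC 12 4 ms l) 330) T' ||
      (Nat.beq (Nat.shiftRight (imgC 12 4 ms l) 330) T &&
        auts.all fun a => memN es (imgC 11 4 (lowM (ms.map (pmM l))) a)))))

theorem sub_mapF {n k : ℕ} {σ : Equiv.Perm (Fin 13)} (hσ : Keeps n σ)
    {D : Finset (Finset (Fin 13))} (hD : ∀ s ∈ D, Sub n k s) : ∀ s ∈ mapF σ D, Sub n k s := by
  intro s hs
  rw [mem_mapF'] at hs
  have h := hD _ hs
  exact hσ.symm.sub_iff.1 h

theorem keeps_eleven {σ : Equiv.Perm (Fin 13)} (h11 : σ 11 = 11) (h12 : σ 12 = 12) :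
    Keeps 11 σ := by
  intro a ha
  by_contra h1
  have h2 : σ a = 11 ∨ σ a = 12 := by
    have := (σ a).isLt
    have h3 : (σ a).val = 11 ∨ (σ a).val = 12 := by omega
    rcases h3 with h3 | h3
    · exact Or.inl (Fin.ext h3)
    · exact Or.inr (Fin.ext h3)
  rcases h2 with h2 | h2
  · have h3 : a = 11 := σ.injective (h2.trans h11.symm)
    rw [h3] at ha
    exact absurd ha (by decide)
  · have h3 : a = 12 := σ.injective (h2.trans h12.symm)
    rw [h3] at ha
    exact absurd ha (by decide)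

theorem lt_of_mem_decL {n k N m : ℕ} (h : m ∈ decL (L n k) N) : m ∈ L n k :=
  (sublist_decL _ _).subset h

/-- the part avoiding `11` of the image -/
theorem famL_lowM {r : ℕ} {σ : Equiv.Perm (Fin 13)} (h12 : σ 12 = 12) :
    famL (lowM ((decL (L 12 4) r).map (pmM (valL σ)))) =
      (mapF σ (fam 12 4 r)).filter (fun s => (11 : Fin 13) ∉ s) := by
  have hk := keeps_twelve h12
  have hmem : ∀ m ∈ (decL (L 12 4) r).map (pmM (valL σ)), m ∈ L 12 4 := by
    intro m hm
    rw [List.mem_map] at hm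
    obtain ⟨m', hm', rfl⟩ := hm
    exact pmM_mem_L (by norm_num) hk (lt_of_mem_decL hm')
  ext s
  rw [mem_filter, ← famL_decL, mapF_famL, mem_famL, mem_famL]
  constructor
  · rintro ⟨m, hm, rfl⟩
    unfold lowM at hm
    rw [List.mem_filter] at hm
    refine ⟨⟨m, hm.1, rfl⟩, ?_⟩
    rw [mem_ofMask]
    have h1 : m < 2 ^ 11 := Nat.le_of_ble_eq_true hm.2
    rw [show ((11 : Fin 13).val) = 11 from rfl, Nat.testBit_eq_false_of_lt h1]
    exact Bool.false_ne_true
  · rintro ⟨⟨m, hm, rfl⟩, h⟩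
    refine ⟨m, ?_, rfl⟩
    unfold lowM
    rw [List.mem_filter]
    refine ⟨hm, ?_⟩
    rw [mem_ofMask] at h
    have h2 : m < 2 ^ 11 := by
      refine Nat.lt_pow_two_of_testBit _ fun i hi => ?_
      by_contra h3
      rw [Bool.not_eq_false] at h3
      have h4 : m < 2 ^ 12 := lt_of_mem_L (hmem m hm)
      have h5 : i < 12 := by
        by_contra h6
        rw [Nat.testBit_eq_false_of_lt (lt_of_lt_of_le h4
          (Nat.pow_le_pow_right (by norm_num) (by omega)))] at h3
        exact absurd h3 (by simp)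
      have h6 : i = 11 := by omega
      rw [h6] at h3
      exact h h3
    show Nat.ble (m + 1) 2048 = true
    exact Nat.ble_eq_true_of_le h2

/-- **completeness of a table from the flags** -/
theorem tabP_of_flags {cap T T' : ℕ} {reps : List ℕ} {auts : List (List ℕ)}
    {ents : ℕ → List ℕ} (hC : ClsOK cap reps)
    (hcard : (fam 11 3 T).card = 19)
    (hA : ∀ ρ : Equiv.Perm (Fin 13), ρ 11 = 11 → ρ 12 = 12 →
      mapF ρ (fam 11 3 T) = fam 11 3 T → valL ρ ∈ auts)
    (hN : ∀ ρ : Equiv.Perm (Fin 13), ρ 11 = 11 → ρ 12 = 12 →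
      mapF ρ (fam 11 3 T) ≠ fam 11 3 T')
    (hF : ∀ j r, reps[j]? = some r → ∀ p : Fin 13, p ≠ 12 → cnt (fam 12 4 r) {p} = 19 →
      ∃ l, flagOK T T' auts (decL (L 12 4) r) (ents j) p.val l = true) :
    TabP reps T cap (fun _ _ => True) (tabOf reps.length ents) := by
  intro D hD hl hc _
  obtain ⟨j, r, hr, σ, hσ⟩ := hC D hD hc
  have h12 := perm_fix hD hσ
  have hp : σ 11 ≠ 12 := by
    intro h
    have h1 : σ 11 = σ 12 := by rw [h, h12]
    exact absurd (σ.injective h1) (by decide)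
  have hlp : link (fam 12 4 r) (σ 11) = mapF σ (fam 11 3 T) := by
    rw [← hσ, link_mapF, hl]
  have hdeg : cnt (fam 12 4 r) {σ 11} = 19 := by
    rw [← card_link, hlp, card_mapF, hcard]
  obtain ⟨l, hfl⟩ := hF j r hr (σ 11) hp hdeg
  unfold flagOK at hfl
  rw [Bool.and_eq_true, Bool.and_eq_true, Bool.and_eq_true, Nat.beq_eq, Nat.beq_eq] at hfl
  obtain ⟨hok, hl12, hlp11, hfl⟩ := hfl
  set ψ := permOf l hok with hψ
  have hv : valL ψ = l := valL_permOf hok
  have hψ12 : ψ 12 = 12 := Fin.ext (by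
    rw [hψ, ← getD_permOf hok 12]
    exact hl12)
  have hψp : ψ (σ 11) = 11 := Fin.ext (by
    rw [hψ, ← getD_permOf hok (σ 11)]
    exact hlp11)
  have hcode : imgC 12 4 (decL (L 12 4) r) l = enc 12 4 (mapF ψ (fam 12 4 r)) := by
    unfold imgC
    rw [← hv, encL_eq (by norm_num), ← mapF_famL, famL_decL]
    intro m hm
    rw [List.mem_map] at hm
    obtain ⟨m', hm', rfl⟩ := hm
    exact pmM_mem_L (by norm_num) (keeps_twelve hψ12) (lt_of_mem_decL hm')
  set ρ := ψ * σ with hρ
  have hρ11 : ρ 11 = 11 := hψp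
  have hρ12 : ρ 12 = 12 := by
    rw [hρ, Equiv.Perm.mul_apply, h12, hψ12]
  have hρD : mapF ρ D = mapF ψ (fam 12 4 r) := by rw [hρ, mapF_mul, hσ]
  have hlink : link (mapF ψ (fam 12 4 r)) 11 = mapF ρ (fam 11 3 T) := by
    rw [← hρD, ← hl, ← link_mapF, hρ11]
  have hsub : ∀ s ∈ mapF ρ (fam 11 3 T), Sub 11 3 s :=
    sub_mapF (keeps_eleven hρ11 hρ12) fun s hs => sub_of_mem_fam (by norm_num) hs
  have hshift : ∀ U, Nat.shiftRight (imgC 12 4 (decL (L 12 4) r) l) 330 = U →
      mapF ρ (fam 11 3 T) = fam 11 3 U := by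
    intro U hU
    have h1 := enc_shift 11 3 (mapF ψ (fam 12 4 r))
    have e1 : ((11 : Fin 13).val) = 11 := rfl
    have e2 : Nat.choose 11 4 = 330 := by decide
    rw [e1, e2] at h1
    have h2 : enc 11 3 (link (mapF ψ (fam 12 4 r)) 11) = U := by
      have e3 : ∀ x y : ℕ, Nat.shiftRight x y = x >>> y := fun _ _ => rfl
      rw [← h1, ← hU, hcode, e3]
    rw [hlink] at h2
    rw [← fam_enc (by norm_num) hsub, h2]
  rw [Bool.or_eq_true, Nat.beq_eq, Bool.and_eq_true, Nat.beq_eq, List.all_eq_true] at hfl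
  rcases hfl with hbad | ⟨hT, hall⟩
  · exact absurd (hshift _ hbad) (hN ρ hρ11 hρ12)
  have hTT := hshift _ hT
  -- the inverse is an automorphism of the list
  have hs11 : ρ.symm 11 = 11 := by rw [Equiv.symm_apply_eq, hρ11]
  have hs12 : ρ.symm 12 = 12 := by rw [Equiv.symm_apply_eq, hρ12]
  have hsT : mapF ρ.symm (fam 11 3 T) = fam 11 3 T := by
    conv_lhs => rw [← hTT]
    exact mapF_symm_mapF ρ _
  have hmem := hall _ (hA ρ.symm hs11 hs12 hsT)
  rw [memN_iff] at hmem
  -- the entry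
  have hk11 : Keeps 11 ρ.symm := keeps_eleven hs11 hs12
  have hlow : ∀ m ∈ lowM ((decL (L 12 4) r).map (pmM l)), m ∈ L 11 4 := by
    intro m hm
    have h1 : ofMask m ∈ famL (lowM ((decL (L 12 4) r).map (pmM l))) := mem_famL.2 ⟨m, hm, rfl⟩
    rw [← hv, famL_lowM hψ12, mem_filter] at h1
    have h2 : Sub 12 4 (ofMask m) :=
      sub_mapF (keeps_twelve hψ12) (fun s hs => sub_of_mem_fam (by norm_num) hs) _ h1.1
    unfold lowM at hm
    rw [List.mem_filter] at hm
    have h3 : m < 2 ^ 11 := Nat.le_of_ble_eq_true hm.2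
    rw [mem_L (by norm_num)]
    exact ⟨h3, h2.2⟩
  have hent : imgC 11 4 (lowM ((decL (L 12 4) r).map (pmM l))) (valL ρ.symm) =
      enc 11 4 (D.filter (fun s => (11 : Fin 13) ∉ s)) := by
    unfold imgC
    rw [encL_eq (by norm_num), ← mapF_famL, ← hv, famL_lowM hψ12, ← hρD]
    · refine congrArg (enc 11 4) ?_
      rw [mapF_filter ρ.symm _ _ (fun s => (11 : Fin 13) ∉ s), mapF_symm_mapF]
      intro s
      constructor
      · intro h5 h6
        exact h5 (by rw [← hs11]; exact mem_mapS.2 h6)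
      · intro h5 h6
        rw [← hs11] at h6
        exact h5 (mem_mapS.1 h6)
    · intro m hm
      rw [List.mem_map] at hm
      obtain ⟨m', hm', rfl⟩ := hm
      exact pmM_mem_L (by norm_num) hk11 (hlow m' hm')
  rw [hent] at hmem
  have hj : j < reps.length := (List.getElem?_eq_some_iff.1 hr).1
  refine ⟨j, _, mem_tabOf.2 ⟨hj, hmem⟩, ⟨r, hr, σ, hσ⟩, ?_⟩
  rw [fam_enc (by norm_num)]
  intro s hs
  rw [mem_filter] at hs
  have h1 := hD.1 s hs.1
  refine ⟨?_, h1.2⟩
  rw [mk_lt_iff]
  intro a ha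
  have h2 := h1.1 ha
  rw [below_twelve, mem_erase] at h2
  have h3 : a ≠ 11 := fun h4 => hs.2 (h4 ▸ ha)
  have := a.isLt
  by_contra h5
  have h6 : a.val = 11 ∨ a.val = 12 := by omega
  rcases h6 with h6 | h6
  · exact h3 (Fin.ext h6)
  · exact h2.1 (Fin.ext h6)

/-! ### the relative filter -/

/-- the masks of the family with low part `ms` and link `ts` at `11` contained in `U` -/
def inU (ms ts : List ℕ) (U : ℕ) : List ℕ :=
  (ms ++ ts.map fun t => t + 2 ^ 11).filter fun m => Nat.beq (Nat.land m U) m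

/-- `U` shows that the family with low part `ms` and link `ts` is not relative to `11` -/
def badU (ms ts : List ℕ) (U : ℕ) : Bool :=
  memN (L 12 5) U && (Nat.ble 3 (inU ms ts U).length &&
    (Nat.blt U 2048 || !(memN (inU ms ts U) (U - 2048))))

theorem nodup_decL (n k N : ℕ) : (decL (L n k) N).Nodup := (sublist_decL _ _).nodup (nodup_L n k)

theorem not_relX_of_badU {D : Finset (Finset (Fin 13))} {T e U : ℕ}
    (hlow : D.filter (fun s => (11 : Fin 13) ∉ s) = fam 11 4 e)
    (hlink : link D 11 = fam 11 3 T)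
    (h : badU (decL (L 11 4) e) (decL (L 11 3) T) U = true) : ¬ RelX D 11 := by
  intro hrel
  unfold badU at h
  rw [Bool.and_eq_true, Bool.and_eq_true, memN_iff] at h
  obtain ⟨hU, h3, h4⟩ := h
  have h3 := Nat.le_of_ble_eq_true h3
  have hUL := (mem_L (by norm_num)).1 hU
  have hU13 : U < 2 ^ 13 := lt_of_lt_of_le hUL.1 (by norm_num)
  have e11 : ((11 : Fin 13).val) = 11 := rfl
  -- the masks
  have hms : ∀ m ∈ decL (L 11 4) e, m < 2 ^ 11 ∧ ofMask m ∈ D := by
    intro m hm
    refine ⟨lt_of_mem_L (lt_of_mem_decL hm), ?_⟩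
    have h5 : ofMask m ∈ fam 11 4 e := by
      rw [← famL_decL, mem_famL]
      exact ⟨m, hm, rfl⟩
    rw [← hlow, mem_filter] at h5
    exact h5.1
  have hts : ∀ t ∈ decL (L 11 3) T, t < 2 ^ 11 ∧ ofMask (t + 2 ^ 11) ∈ D := by
    intro t ht
    have h5 : t < 2 ^ 11 := lt_of_mem_L (lt_of_mem_decL ht)
    refine ⟨h5, ?_⟩
    have h6 : ofMask t ∈ fam 11 3 T := by
      rw [← famL_decL, mem_famL]
      exact ⟨t, ht, rfl⟩
    rw [← hlink, mem_link] at h6
    have h7 := ofMask_add (m := t) 11 h5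
    rw [e11] at h7
    rw [h7]
    exact h6.2
  have hall : ∀ m ∈ decL (L 11 4) e ++ (decL (L 11 3) T).map (fun t => t + 2 ^ 11),
      m < 2 ^ 12 ∧ ofMask m ∈ D := by
    intro m hm
    rw [List.mem_append, List.mem_map] at hm
    rcases hm with hm | ⟨t, ht, rfl⟩
    · have := hms m hm
      exact ⟨by have := this.1; omega, this.2⟩
    · have := hts t ht
      exact ⟨by have := this.1; omega, this.2⟩
  have hnd : (decL (L 11 4) e ++ (decL (L 11 3) T).map (fun t => t + 2 ^ 11)).Nodup := by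
    rw [List.nodup_append]
    refine ⟨nodup_decL _ _ _, ?_, ?_⟩
    · refine (nodup_decL _ _ _).map ?_
      intro a b hab
      have hab' : a + 2 ^ 11 = b + 2 ^ 11 := hab
      omega
    · intro a ha b hb
      rw [List.mem_map] at hb
      obtain ⟨t, -, rfl⟩ := hb
      have := (hms a ha).1
      omega
  have hinj : Set.InjOn ofMask
      ((inU (decL (L 11 4) e) (decL (L 11 3) T) U).toFinset : Set ℕ) := by
    intro a ha b hb hab
    rw [mem_coe, List.mem_toFinset] at ha hb
    unfold inU at ha hb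
    rw [List.mem_filter] at ha hb
    exact ofMask_injOn (lt_of_lt_of_le (hall a ha.1).1 (by norm_num))
      (lt_of_lt_of_le (hall b hb.1).1 (by norm_num)) hab
  have hsubU : ∀ m ∈ inU (decL (L 11 4) e) (decL (L 11 3) T) U,
      m < 2 ^ 12 ∧ ofMask m ∈ D ∧ ofMask m ⊆ ofMask U := by
    intro m hm
    unfold inU at hm
    rw [List.mem_filter, Nat.beq_eq] at hm
    refine ⟨(hall m hm.1).1, (hall m hm.1).2, ?_⟩
    have e1 : m &&& U = m := hm.2
    rw [← e1, ofMask_land]
    exact inter_subset_right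
  have hDcard : ∀ s ∈ D, s.card = 4 := by
    intro s hs
    by_cases h5 : (11 : Fin 13) ∈ s
    · have h6 : s.erase 11 ∈ fam 11 3 T := by
        rw [← hlink, mem_link]
        exact ⟨notMem_erase _ _, by rw [insert_erase h5]; exact hs⟩
      have h7 := (sub_of_mem_fam (by norm_num) h6).2
      rw [card_erase_of_mem h5] at h7
      have h8 : 0 < s.card := card_pos.2 ⟨_, h5⟩
      omega
    · have h6 : s ∈ fam 11 4 e := by
        rw [← hlow, mem_filter]
        exact ⟨hs, h5⟩
      exact (sub_of_mem_fam (by norm_num) h6).2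
  have hcnt : 3 ≤ (D ∩ (ofMask U).powersetCard 4).card := by
    refine h3.trans ?_
    have h5 : (inU (decL (L 11 4) e) (decL (L 11 3) T) U).length =
        ((inU (decL (L 11 4) e) (decL (L 11 3) T) U).toFinset.image ofMask).card := by
      rw [card_image_of_injOn hinj, List.toFinset_card_of_nodup]
      unfold inU
      exact hnd.filter _
    rw [h5]
    refine card_le_card ?_
    intro s hs
    rw [mem_image] at hs
    obtain ⟨m, hm, rfl⟩ := hs
    rw [List.mem_toFinset] at hm
    have h6 := hsubU m hm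
    rw [mem_inter, mem_powersetCard]
    exact ⟨h6.2.1, h6.2.2, hDcard _ h6.2.1⟩
  obtain ⟨h5, h6⟩ := hrel (ofMask U) hUL.2 hcnt
  have hU11 : U.testBit 11 = true := mem_ofMask.1 h5
  have hge : 2 ^ 11 ≤ U := Nat.ge_two_pow_of_testBit hU11
  rw [Bool.or_eq_true] at h4
  rcases h4 with h4 | h4
  · have : U < 2048 := Nat.le_of_ble_eq_true h4
    omega
  · rw [Bool.not_eq_true', ← Bool.not_eq_true, memN_iff] at h4
    refine h4 ?_
    have hlt : U - 2048 < 2 ^ 11 := by
      have := hUL.1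
      omega
    have e2 : ofMask U = insert 11 (ofMask (U - 2048)) := by
      have h7 := ofMask_add (m := U - 2048) 11 hlt
      rw [e11] at h7
      rw [← h7]
      congr 1
      omega
    have h8 : (11 : Fin 13) ∉ ofMask (U - 2048) := notMem_ofMask 11 hlt
    rw [e2, erase_insert h8] at h6
    have h9 : ofMask (U - 2048) ∈ fam 11 4 e := by
      rw [← hlow, mem_filter]
      exact ⟨h6, h8⟩
    rw [← famL_decL, mem_famL] at h9
    obtain ⟨m, hm, h10⟩ := h9
    have h11 : m = U - 2048 :=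
      ofMask_injOn (lt_of_lt_of_le (hms m hm).1 (by norm_num)) (by omega) h10
    unfold inU
    rw [List.mem_filter, Nat.beq_eq]
    refine ⟨List.mem_append_left _ (h11 ▸ hm), ?_⟩
    have h12 : ofMask (U - 2048) ⊆ ofMask U := by
      rw [e2]
      exact subset_insert _ _
    show Nat.land (U - 2048) U = U - 2048
    have h13 : ofMask ((U - 2048) &&& U) = ofMask (U - 2048) := by
      rw [ofMask_land]
      exact inter_eq_left.2 h12
    have h14 : (U - 2048) &&& U < 2 ^ 13 :=
      lt_of_le_of_lt Nat.and_le_left (by omega)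
    exact ofMask_injOn h14 (by omega) h13

/-- the relative sublist: every dropped entry has a witness -/
theorem tabP_relX {cap T n : ℕ} {reps : List ℕ} {ents entsX : ℕ → List ℕ}
    (h : TabP reps T cap (fun _ _ => True) (tabOf n ents))
    (hX : ∀ j < n, ∀ e ∈ ents j, e ∈ entsX j ∨
      ∃ U, badU (decL (L 11 4) e) (decL (L 11 3) T) U = true) :
    TabP reps T cap RelX (tabOf n entsX) := by
  intro D hD hl hc hP
  obtain ⟨k, e, h1, h2, h3⟩ := h D hD hl hc trivial
  rw [mem_tabOf] at h1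
  refine ⟨k, e, ?_, h2, h3⟩
  rcases hX k h1.1 e h1.2 with h4 | ⟨U, hU⟩
  · exact mem_tabOf.2 ⟨h1.1, h4⟩
  · exact absurd hP (not_relX_of_badU h3 hl hU)

end Pool.Agent.Helper44.TY
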