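import Mathlib
import Pool.Agent.Helper79.CV.FBlockA
import Pool.Agent.Helper79.CV.FReps
import Pool.Agent.Helper44.TY.TabF

/-!
MP_8ee768_co, project TH-Y', stages F and T: the one-link tables modulo the automorphisms of the
link (helper79's `TabA`) from the list of classes by flags, checked in cubes: for every
representative and every point of degree 19 one word of exchanges to an entry of the table.
-/

set_option autoImplicit false
set_option maxRecDepth 100000
set_option exponentiation.threshold 5000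

namespace Pool.Agent.Helper44.TY

open Finset
open Pool.Agent.Helper89.CV (OddCover ofMask pc ofMask_card)
open Pool.Agent.Helper97.CV
open Pool.Agent.Helper79.CV
open Pool.Agent.Helper33.CV
open Pool.Agent.Helper63.SIMD
open Pool.Agent.Helper91.TY
open Pool.Agent.Helper82.TY (below)

/-! ### entries as codes on twelve points -/

theorem fam_low {n : Fin 13} {k e : ℕ} (hk : 0 < k) (he : e < 2 ^ n.val.choose k) :
    fam (n.val + 1) k e = fam n.val k e := by
  obtain ⟨k, rfl⟩ : ∃ k', k = k' + 1 := ⟨k - 1, by omega⟩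
  have hn : n.val + 1 ≤ 13 := n.isLt
  have h1 : n.val.choose (k + 1) ≤ (n.val + 1).choose (k + 1) :=
    Nat.choose_le_choose _ (Nat.le_succ _)
  have h2 : e < 2 ^ (n.val + 1).choose (k + 1) :=
    lt_of_lt_of_le he (Nat.pow_le_pow_right (by norm_num) h1)
  have hs : ∀ s ∈ fam n.val (k + 1) e, Sub (n.val + 1) (k + 1) s := by
    intro s hs
    have h3 := sub_of_mem_fam (by omega) hs
    exact ⟨lt_of_lt_of_le h3.1 (Nat.pow_le_pow_right (by norm_num) (Nat.le_succ _)), h3.2⟩
  have h4 : enc (n.val + 1) (k + 1) (fam n.val (k + 1) e) = e := by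
    have hl : link (fam n.val (k + 1) e) n = ∅ := by
      rw [eq_empty_iff_forall_notMem]
      intro s hs
      rw [mem_link] at hs
      have h5 := (sub_of_mem_fam (by omega) hs.2).1
      rw [mk_lt_iff] at h5
      have h6 := h5 n (mem_insert_self n s)
      exact absurd h6 (lt_irrefl _)
    rw [enc_split, hl, enc_fam (by omega) he]
    have h5 : enc n.val k ∅ = 0 := by
      rw [← fam_zero n.val k, enc_fam (by omega) (Nat.two_pow_pos _)]
    rw [h5]
    omega
  rw [← fam_enc hn hs, h4]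

theorem ent_eq {T e : ℕ} (hT : T < 2 ^ 165) (he : e < 2 ^ 330) :
    fam 12 4 (T * 2 ^ 330 + e) = ent T e := by
  have e11 : ((11 : Fin 13).val) = 11 := rfl
  have ec : Nat.choose 11 4 = 330 := by decide
  have ec3 : Nat.choose 11 3 = 165 := by decide
  have h1 := fam_shift_cone 11 3 T (by rw [e11, ec3]; exact hT)
  rw [e11, ec] at h1
  have h2 := fam_low (n := 11) (k := 4) (e := e) (by norm_num) (by rw [e11, ec]; exact he)
  rw [e11] at h2
  have h3 : T * 2 ^ 330 + e = (T <<< 330) ||| e := by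
    rw [Nat.shiftLeft_eq, Nat.mul_comm, Nat.two_pow_add_eq_or_of_lt he]
  have h4 := fam_lor (n := 12) (by norm_num) 4 (T <<< 330) e
  rw [h3, h4]
  unfold ent
  rw [← h1, ← h2]

theorem link_ent (T e : ℕ) : link (ent T e) 11 = fam 11 3 T := by
  unfold ent
  have h0 : ∀ s ∈ fam 11 3 T, (11 : Fin 13) ∉ s := fun s hs => notMem_fam (k := 3) 11 hs
  ext s
  rw [mem_link, mem_union, mem_cone h0]
  constructor
  · rintro ⟨h3, h4⟩
    rcases h4 with h4 | h4
    · have h5 := h4.2
      rwa [erase_insert h3] at h5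
    · exact absurd (mem_insert_self _ _) (notMem_fam (k := 4) 11 h4)
  · intro h3
    refine ⟨h0 s h3, Or.inl ⟨mem_insert_self _ _, ?_⟩⟩
    rw [erase_insert (h0 s h3)]
    exact h3

/-! ### the abstract form -/

/-- **completeness of a table modulo automorphisms from the flags** -/
theorem tabA_of_moves {cap T : ℕ} {reps : List ℕ} {A : Set (Equiv.Perm (Fin 13))}
    {l : List (ℕ × ℕ)} (hC : ClsOK cap reps) (hcard : (fam 11 3 T).card = 19)
    (hA : ∀ ρ : Equiv.Perm (Fin 13), ρ 11 = 11 → ρ 12 = 12 →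
      mapF ρ (fam 11 3 T) = fam 11 3 T → ρ ∈ A)
    (hF : ∀ j r, reps[j]? = some r → ∀ p : Fin 13, p ≠ 12 → cnt (fam 12 4 r) {p} = 19 →
      ∃ τ : Equiv.Perm (Fin 13), τ 12 = 12 ∧ τ p = 11 ∧
        ((∃ e, (j, e) ∈ l ∧ mapF τ (fam 12 4 r) = ent T e) ∨
          (∀ ρ : Equiv.Perm (Fin 13), ρ 11 = 11 → ρ 12 = 12 →
            mapF ρ (fam 11 3 T) ≠ link (mapF τ (fam 12 4 r)) 11))) :
    TabA reps T cap (fun _ _ => True) A l := by
  intro D hD hl hc _
  obtain ⟨j, r, hr, σ, hσ⟩ := hC D hD hc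
  have h12 := perm_fix hD hσ
  have hp : σ 11 ≠ 12 := by
    intro h
    have h1 : σ 11 = σ 12 := by rw [h, h12]
    exact absurd (σ.injective h1) (by decide)
  have hlp : link (fam 12 4 r) (σ 11) = mapF σ (fam 11 3 T) := by
    rw [← hσ, link_mapF, hl]
  have hdeg : cnt (fam 12 4 r) {σ 11} = 19 := by
    rw [← card_link, hlp, card_mapF, hcard]
  obtain ⟨τ, hτ12, hτp, hτ⟩ := hF j r hr (σ 11) hp hdeg
  set ρ := τ * σ with hρ
  have hρ11 : ρ 11 = 11 := hτp
  have hρ12 : ρ 12 = 12 := by
    rw [hρ, Equiv.Perm.mul_apply, h12, hτ12]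
  have hρD : mapF ρ D = mapF τ (fam 12 4 r) := by rw [hρ, mapF_mul, hσ]
  have hlink : link (mapF τ (fam 12 4 r)) 11 = mapF ρ (fam 11 3 T) := by
    rw [← hρD, ← hl, ← link_mapF, hρ11]
  rcases hτ with ⟨e, he, h1⟩ | h1
  · have h3 : mapF ρ (fam 11 3 T) = fam 11 3 T := by rw [← hlink, h1, link_ent]
    have hs11 : ρ.symm 11 = 11 := by rw [Equiv.symm_apply_eq, hρ11]
    have hs12 : ρ.symm 12 = 12 := by rw [Equiv.symm_apply_eq, hρ12]
    have hsT : mapF ρ.symm (fam 11 3 T) = fam 11 3 T := by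
      conv_lhs => rw [← h3]
      exact mapF_symm_mapF ρ _
    refine ⟨j, e, he, ρ.symm, hA _ hs11 hs12 hsT, ⟨hs11, hs12⟩, ⟨r, hr, σ, hσ⟩, ?_⟩
    rw [← h1, ← hρD, mapF_symm_mapF]
  · exact absurd hlink.symm (h1 ρ hρ11 hρ12)

/-! ### the relative filter -/

/-- `U` shows that the family with cube `C` is not relative to `11` -/
def badC (C U : ℕ) : Bool :=
  Nat.blt U 4096 && (Nat.beq (pc U) 5 && (Nat.ble 3 (cntC U C 12) &&
    (Nat.blt U 2048 || !(Nat.testBit C (U - 2048)))))

theorem not_relX_of_badC {r U : ℕ} (h : badC (cub 12 (fam 12 4 r)) U = true) :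
    ¬ RelX (fam 12 4 r) 11 := by
  intro hrel
  unfold badC at h
  rw [Bool.and_eq_true, Bool.and_eq_true, Bool.and_eq_true, Nat.blt_eq, Nat.beq_eq,
    Nat.ble_eq] at h
  obtain ⟨hU, h5, h3, h4⟩ := h
  obtain ⟨h6, h7⟩ := hrel (ofMask U) (by rw [ofMask_card, h5]) (three_le_card hU h5 h3)
  have h8 : U.testBit 11 = true := mem_ofMask.1 h6
  have hge : 2 ^ 11 ≤ U := Nat.ge_two_pow_of_testBit h8
  rw [Bool.or_eq_true, Nat.blt_eq] at h4
  rcases h4 with h4 | h4
  · omega
  · have e11 : ((11 : Fin 13).val) = 11 := rfl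
    have h9 := ofMask_sub (w := U) 11 h8
    rw [e11] at h9
    have h10 : U - 2 ^ 11 < 2 ^ 12 := lt_of_le_of_lt (Nat.sub_le _ _) hU
    have e2 : U - 2048 = U - 2 ^ 11 := rfl
    rw [Bool.not_eq_true', e2, testBit_cub _ h10, decide_eq_false_iff_not, h9] at h4
    exact h4 h7

/-- the relative sublist -/
theorem tabA_relX {cap T : ℕ} {reps : List ℕ} {A : Set (Equiv.Perm (Fin 13))}
    {l lx : List (ℕ × ℕ)} (h : TabA reps T cap (fun _ _ => True) A l)
    (hX : ∀ p ∈ l, p ∈ lx ∨ ¬ RelX (ent T p.2) 11) : TabA reps T cap RelX A lx := by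
  intro D hD hl hc hP
  obtain ⟨k, e, h1, α, hα, hf, h2, h3⟩ := h D hD hl hc trivial
  refine ⟨k, e, ?_, α, hα, hf, h2, h3⟩
  rcases hX _ h1 with h4 | h4
  · exact h4
  · refine absurd ?_ h4
    have h5 := invA_relX α.symm D 11 hP
    rw [hf.symm.1, h3, mapF_symm_mapF] at h5
    exact h5

/-! ### the kernel check -/

/-- the record of one class: certificates of the points, entries of the two types (relative and
not relative with witness) -/
structure Rec where
  cs : List ℕ
  xa : List ℕ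
  na : List (ℕ × ℕ)
  xb : List ℕ
  nb : List (ℕ × ℕ)

/-- the entries over the first type that are not relative -/
def Rec.ya (R : Rec) : List ℕ := R.na.map Prod.fst

/-- the entries over the second type that are not relative -/
def Rec.yb (R : Rec) : List ℕ := R.nb.map Prod.fst

/-- the entries over the first type -/
def Rec.ea (R : Rec) : List ℕ := R.xa ++ R.ya

/-- the entries over the second type -/
def Rec.eb (R : Rec) : List ℕ := R.xb ++ R.yb

/-- the word `w` takes `p` to `11` and the cube `C` to the cube of `f` -/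
noncomputable def pointOK (C f p w n : ℕ) : Bool :=
  okW 12 w n && (Nat.beq (appW w n p) 11 && (Nat.blt f (2 ^ 495) &&
    Nat.beq (Nat.mod (runC 4096 n w C) (2 ^ 4096)) (cub4 f)))

theorem pointOK_sound {r f n w : ℕ} {p : Fin 13}
    (h : pointOK (cub 12 (fam 12 4 r)) f p.val w n = true) :
    f < 2 ^ 495 ∧ ∃ τ : Equiv.Perm (Fin 13), τ 12 = 12 ∧ τ p = 11 ∧
      mapF τ (fam 12 4 r) = fam 12 4 f := by
  unfold pointOK at h
  rw [Bool.and_eq_true, Bool.and_eq_true, Bool.and_eq_true, Nat.beq_eq, Nat.blt_eq,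
    Nat.beq_eq] at h
  obtain ⟨h1, h2, h3, h4⟩ := h
  rw [cub4_eq h3] at h4
  have hlt : ∀ p ∈ prs w n, p.1.val < 12 ∧ p.2.val < 12 := fun p hp => by
    have h1 := prs_lt h1 p hp
    omega
  have h12 : wpc (prs w n) 12 = 12 := wpc_fix hlt (by decide)
  refine ⟨h3, wpc (prs w n), h12, ?_, ?_⟩
  · refine Fin.ext ?_
    rw [appW_eq h1 p, h2]
    rfl
  · have hk := keeps_twelve h12
    refine cub_injOn (n := 12) ?_ (fun s hs => (sub_of_mem_fam (by norm_num) hs).1) ?_
    · intro s hs
      rw [mem_mapF'] at hs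
      exact (hk.symm.sub_iff.1 (sub_of_mem_fam (n := 12) (by norm_num) hs)).1
    · rw [← runC_one (by norm_num) h1, fld_mod]
      exact h4

/-- one certificate `c = n + 2 ^ 8 * (type + 2 * index) + 2 ^ 32 * w` -/
noncomputable def certA (TA TB C : ℕ) (ea eb : List ℕ) (p c : ℕ) : Bool :=
  (fun t => bif Nat.beq (Nat.mod t 2) 0 then
    (match ea[Nat.div t 2]? with
      | none => false
      | some e => Nat.blt e (2 ^ 330) && pointOK C (TA * 2 ^ 330 + e) p (Nat.shiftRight c 32)
          (Nat.mod c 256))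
    else
    (match eb[Nat.div t 2]? with
      | none => false
      | some e => Nat.blt e (2 ^ 330) && pointOK C (TB * 2 ^ 330 + e) p (Nat.shiftRight c 32)
          (Nat.mod c 256)))
    (Nat.mod (Nat.shiftRight c 8) (2 ^ 24))

theorem certA_sound {TA TB r c : ℕ} (hTA : TA < 2 ^ 165) (hTB : TB < 2 ^ 165)
    {ea eb : List ℕ} {p : Fin 13}
    (h : certA TA TB (cub 12 (fam 12 4 r)) ea eb p.val c = true) :
    ∃ τ : Equiv.Perm (Fin 13), τ 12 = 12 ∧ τ p = 11 ∧
      ((∃ e ∈ ea, mapF τ (fam 12 4 r) = ent TA e) ∨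
        (∃ e ∈ eb, mapF τ (fam 12 4 r) = ent TB e)) := by
  unfold certA at h
  generalize Nat.mod (Nat.shiftRight c 8) (2 ^ 24) = t at h
  have h' : (bif Nat.beq (Nat.mod t 2) 0 then
    (match ea[Nat.div t 2]? with
      | none => false
      | some e => Nat.blt e (2 ^ 330) && pointOK (cub 12 (fam 12 4 r)) (TA * 2 ^ 330 + e)
          p.val (Nat.shiftRight c 32) (Nat.mod c 256))
    else
    (match eb[Nat.div t 2]? with
      | none => false
      | some e => Nat.blt e (2 ^ 330) && pointOK (cub 12 (fam 12 4 r)) (TB * 2 ^ 330 + e)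
          p.val (Nat.shiftRight c 32) (Nat.mod c 256))) = true := h
  cases ht : Nat.beq (Nat.mod t 2) 0 with
  | true =>
    rw [ht, cond_true] at h'
    cases h1 : ea[Nat.div t 2]? with
    | none =>
      rw [h1] at h'
      exact absurd h' Bool.false_ne_true
    | some e =>
      rw [h1] at h'
      have h2 : (Nat.blt e (2 ^ 330) && pointOK (cub 12 (fam 12 4 r)) (TA * 2 ^ 330 + e)
          p.val (Nat.shiftRight c 32) (Nat.mod c 256)) = true := h'
      rw [Bool.and_eq_true, Nat.blt_eq] at h2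
      obtain ⟨-, τ, h3, h4, h5⟩ := pointOK_sound h2.2
      rw [ent_eq hTA h2.1] at h5
      exact ⟨τ, h3, h4, Or.inl ⟨e, List.mem_of_getElem? h1, h5⟩⟩
  | false =>
    rw [ht, cond_false] at h'
    cases h1 : eb[Nat.div t 2]? with
    | none =>
      rw [h1] at h'
      exact absurd h' Bool.false_ne_true
    | some e =>
      rw [h1] at h'
      have h2 : (Nat.blt e (2 ^ 330) && pointOK (cub 12 (fam 12 4 r)) (TB * 2 ^ 330 + e)
          p.val (Nat.shiftRight c 32) (Nat.mod c 256)) = true := h'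
      rw [Bool.and_eq_true, Nat.blt_eq] at h2
      obtain ⟨-, τ, h3, h4, h5⟩ := pointOK_sound h2.2
      rw [ent_eq hTB h2.1] at h5
      exact ⟨τ, h3, h4, Or.inr ⟨e, List.mem_of_getElem? h1, h5⟩⟩

/-- the points of the list, one certificate for every point of degree 19 -/
noncomputable def ptsA (TA TB r C : ℕ) (ea eb : List ℕ) : List ℕ → List ℕ → Bool
  | [], _ => true
  | p :: ps, cs =>
    bif Nat.beq (dgF r p) 19 then
      match cs with
      | [] => false
      | c :: cs => certA TA TB C ea eb p c && ptsA TA TB r C ea eb ps cs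
    else ptsA TA TB r C ea eb ps cs

theorem ptsA_get {TA TB r C : ℕ} {ea eb ps cs : List ℕ}
    (h : ptsA TA TB r C ea eb ps cs = true) {p : ℕ} (hp : p ∈ ps) (hd : dgF r p = 19) :
    ∃ c, certA TA TB C ea eb p c = true := by
  induction ps generalizing cs with
  | nil => exact absurd hp List.not_mem_nil
  | cons a ps ih =>
    cases ha : Nat.beq (dgF r a) 19 with
    | true =>
      cases cs with
      | nil =>
        have e : ptsA TA TB r C ea eb (a :: ps) [] =
            bif Nat.beq (dgF r a) 19 then false else ptsA TA TB r C ea eb ps [] := rfl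
        rw [e, ha, cond_true] at h
        exact absurd h Bool.false_ne_true
      | cons c cs =>
        have e : ptsA TA TB r C ea eb (a :: ps) (c :: cs) =
            bif Nat.beq (dgF r a) 19 then
              (certA TA TB C ea eb a c && ptsA TA TB r C ea eb ps cs)
            else ptsA TA TB r C ea eb ps (c :: cs) := rfl
        rw [e, ha, cond_true, Bool.and_eq_true] at h
        rcases List.mem_cons.1 hp with rfl | h1
        · exact ⟨c, h.1⟩
        · exact ih h.2 h1
    | false =>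
      have e : ∀ cs, ptsA TA TB r C ea eb (a :: ps) cs =
          bif Nat.beq (dgF r a) 19 then
            match cs with
            | [] => false
            | c :: cs => certA TA TB C ea eb a c && ptsA TA TB r C ea eb ps cs
          else ptsA TA TB r C ea eb ps cs := fun _ => rfl
      rw [e, ha, cond_false] at h
      rcases List.mem_cons.1 hp with rfl | h1
      · rw [hd] at ha
        exact absurd ha (by decide)
      · exact ih h h1

/-- the check of the witnesses -/
noncomputable def witA (T : ℕ) : List (ℕ × ℕ) → Bool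
  | [] => true
  | p :: l => (Nat.blt p.1 (2 ^ 330) && badC (cub4 (T * 2 ^ 330 + p.1)) p.2) && witA T l

theorem witA_get {T : ℕ} (hT : T < 2 ^ 165) {l : List (ℕ × ℕ)} (h : witA T l = true) {e : ℕ}
    (he : e ∈ l.map Prod.fst) : ¬ RelX (ent T e) 11 := by
  induction l with
  | nil => exact absurd he List.not_mem_nil
  | cons p l ih =>
    have e1 : witA T (p :: l) =
      ((Nat.blt p.1 (2 ^ 330) && badC (cub4 (T * 2 ^ 330 + p.1)) p.2) && witA T l) := rfl
    rw [e1, Bool.and_eq_true, Bool.and_eq_true, Nat.blt_eq] at h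
    rw [List.map_cons, List.mem_cons] at he
    rcases he with rfl | he
    · rw [← ent_eq hT h.1.1]
      have h2 : T * 2 ^ 330 + p.1 < 2 ^ 495 := by
        have h3 : (2 : ℕ) ^ 495 = 2 ^ 165 * 2 ^ 330 := by rw [← pow_add]
        have h4 : (T + 1) * 2 ^ 330 ≤ 2 ^ 165 * 2 ^ 330 := Nat.mul_le_mul_right _ hT
        rw [h3]
        have h5 := h.1.1
        rw [Nat.add_mul, Nat.one_mul] at h4
        omega
      have h3 := h.1.2
      rw [cub4_eq h2] at h3
      exact not_relX_of_badC h3
    · exact ih h.2 he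

/-- the check of one record -/
noncomputable def recOK (TA TB r : ℕ) (R : Rec) : Bool :=
  Nat.blt r (2 ^ 495) && (rootOK2.frc2 (fun C => ptsA TA TB r C R.ea R.eb (List.range 12) R.cs)
    (cub4 r) && (witA TA R.na && witA TB R.nb))

/-- the check of all records -/
noncomputable def recsOK (TA TB : ℕ) : List ℕ → List Rec → Bool
  | [], _ => true
  | _ :: _, [] => false
  | r :: rs, R :: Rs => recOK TA TB r R && recsOK TA TB rs Rs

theorem recsOK_get {TA TB : ℕ} {rs : List ℕ} {Rs : List Rec} (h : recsOK TA TB rs Rs = true)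
    {j r : ℕ} (hr : rs[j]? = some r) : ∃ R, Rs[j]? = some R ∧ recOK TA TB r R = true := by
  induction rs generalizing Rs j with
  | nil => exact absurd hr (by simp)
  | cons a rs ih =>
    cases Rs with
    | nil => exact absurd h Bool.false_ne_true
    | cons R Rs =>
      have e : recsOK TA TB (a :: rs) (R :: Rs) =
        (recOK TA TB a R && recsOK TA TB rs Rs) := rfl
      rw [e, Bool.and_eq_true] at h
      cases j with
      | zero =>
        rw [List.getElem?_cons_zero, Option.some.injEq] at hr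
        subst hr
        exact ⟨R, List.getElem?_cons_zero, h.1⟩
      | succ j =>
        rw [List.getElem?_cons_succ] at hr
        obtain ⟨R', h1, h2⟩ := ih h.2 hr
        exact ⟨R', by rw [List.getElem?_cons_succ]; exact h1, h2⟩

/-- the concatenation of two checked lists -/
theorem recsOK_append {TA TB : ℕ} {rs rs' : List ℕ} {Rs Rs' : List Rec}
    (hlen : rs.length = Rs.length) (h : recsOK TA TB rs Rs = true)
    (h' : recsOK TA TB rs' Rs' = true) : recsOK TA TB (rs ++ rs') (Rs ++ Rs') = true := by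
  induction rs generalizing Rs with
  | nil =>
    have : Rs = [] := List.length_eq_zero_iff.1 hlen.symm
    subst this
    exact h'
  | cons a rs ih =>
    cases Rs with
    | nil => exact absurd hlen (by simp)
    | cons R Rs =>
      have e : recsOK TA TB (a :: rs) (R :: Rs) =
        (recOK TA TB a R && recsOK TA TB rs Rs) := rfl
      rw [e, Bool.and_eq_true] at h
      rw [List.length_cons, List.length_cons] at hlen
      have h1 := ih (Rs := Rs) (by omega) h.2
      show (recOK TA TB a R && recsOK TA TB (rs ++ rs') (Rs ++ Rs')) = true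
      rw [h.1, h1]
      rfl

/-- the list of (class, entry) pairs of a list of records -/
def listOf (f : Rec → List ℕ) : ℕ → List Rec → List (ℕ × ℕ)
  | _, [] => []
  | j, R :: Rs => (f R).map (fun e => (j, e)) ++ listOf f (j + 1) Rs

theorem mem_listOf {f : Rec → List ℕ} {Rs : List Rec} {j₀ k e : ℕ} :
    (k, e) ∈ listOf f j₀ Rs ↔ ∃ i R, Rs[i]? = some R ∧ k = j₀ + i ∧ e ∈ f R := by
  induction Rs generalizing j₀ with
  | nil =>
    constructor
    · intro h
      exact absurd h List.not_mem_nil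
    · rintro ⟨i, R, h, -⟩
      exact absurd h (by simp)
  | cons R Rs ih =>
    have e1 : listOf f j₀ (R :: Rs) = (f R).map (fun e => (j₀, e)) ++ listOf f (j₀ + 1) Rs := rfl
    rw [e1, List.mem_append, List.mem_map, ih]
    constructor
    · rintro (⟨e', h1, h2⟩ | ⟨i, R', h1, h2, h3⟩)
      · rw [Prod.mk.injEq] at h2
        obtain ⟨h2, h3⟩ := h2
        subst h2 h3
        exact ⟨0, R, List.getElem?_cons_zero, rfl, h1⟩
      · exact ⟨i + 1, R', by rw [List.getElem?_cons_succ]; exact h1, by omega, h3⟩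
    · rintro ⟨i, R', h1, h2, h3⟩
      cases i with
      | zero =>
        rw [List.getElem?_cons_zero, Option.some.injEq] at h1
        subst h1
        exact Or.inl ⟨e, h3, by rw [Prod.mk.injEq]; exact ⟨by omega, rfl⟩⟩
      | succ i =>
        rw [List.getElem?_cons_succ] at h1
        exact Or.inr ⟨i, R', h1, by omega, h3⟩

theorem mem_listOf_append {f g : Rec → List ℕ} {Rs : List Rec} {j₀ k e : ℕ} :
    (k, e) ∈ listOf (fun R => f R ++ g R) j₀ Rs ↔
      (k, e) ∈ listOf f j₀ Rs ∨ (k, e) ∈ listOf g j₀ Rs := by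
  rw [mem_listOf, mem_listOf, mem_listOf]
  constructor
  · rintro ⟨i, R, h1, h2, h3⟩
    rcases List.mem_append.1 h3 with h4 | h4
    · exact Or.inl ⟨i, R, h1, h2, h4⟩
    · exact Or.inr ⟨i, R, h1, h2, h4⟩
  · rintro (⟨i, R, h1, h2, h3⟩ | ⟨i, R, h1, h2, h3⟩)
    · exact ⟨i, R, h1, h2, List.mem_append_left _ h3⟩
    · exact ⟨i, R, h1, h2, List.mem_append_right _ h3⟩

/-- the permutations of `{0, .., 10}` given by a list of value lists -/
def autSet (auts : List (List ℕ)) : Set (Equiv.Perm (Fin 13)) :=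
  {α | Fix2 α ∧ valL α ∈ auts}

section main

variable {cap TA TB : ℕ} {reps : List ℕ} {Rs : List Rec} {A B : Set (Equiv.Perm (Fin 13))}

theorem tabA_fst (hC : ClsOK cap reps) (hTA : TA < 2 ^ 165) (hTB : TB < 2 ^ 165)
    (hcard : (fam 11 3 TA).card = 19)
    (hA : ∀ ρ : Equiv.Perm (Fin 13), ρ 11 = 11 → ρ 12 = 12 →
      mapF ρ (fam 11 3 TA) = fam 11 3 TA → ρ ∈ A)
    (hN : ∀ ρ : Equiv.Perm (Fin 13), ρ 11 = 11 → ρ 12 = 12 →
      mapF ρ (fam 11 3 TA) ≠ fam 11 3 TB)
    (h : recsOK TA TB reps Rs = true) :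
    TabA reps TA cap (fun _ _ => True) A (listOf Rec.ea 0 Rs) := by
  refine tabA_of_moves hC hcard hA fun j r hr p hp hdeg => ?_
  obtain ⟨R, hR, hok⟩ := recsOK_get h hr
  unfold recOK at hok
  rw [Bool.and_eq_true, Bool.and_eq_true, Nat.blt_eq, frc2_eq] at hok
  obtain ⟨hlt, hpts, -⟩ := hok
  have hp12 : p < 12 := lt_of_le_of_ne (Fin.le_last p) hp
  rw [dgF_eq hlt hp12] at hdeg
  obtain ⟨c, hc⟩ := ptsA_get hpts (List.mem_range.2 hp12) hdeg
  rw [cub4_eq hlt] at hc
  obtain ⟨τ, h1, h2, h3⟩ := certA_sound hTA hTB hc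
  refine ⟨τ, h1, h2, ?_⟩
  rcases h3 with ⟨e, he, h4⟩ | ⟨e, he, h4⟩
  · exact Or.inl ⟨e, mem_listOf.2 ⟨j, R, hR, by omega, he⟩, h4⟩
  · refine Or.inr fun ρ h5 h6 h7 => hN ρ h5 h6 ?_
    rw [h7, h4, link_ent]

theorem tabA_snd (hC : ClsOK cap reps) (hTA : TA < 2 ^ 165) (hTB : TB < 2 ^ 165)
    (hcard : (fam 11 3 TB).card = 19)
    (hB : ∀ ρ : Equiv.Perm (Fin 13), ρ 11 = 11 → ρ 12 = 12 →
      mapF ρ (fam 11 3 TB) = fam 11 3 TB → ρ ∈ B)
    (hN : ∀ ρ : Equiv.Perm (Fin 13), ρ 11 = 11 → ρ 12 = 12 →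
      mapF ρ (fam 11 3 TB) ≠ fam 11 3 TA)
    (h : recsOK TA TB reps Rs = true) :
    TabA reps TB cap (fun _ _ => True) B (listOf Rec.eb 0 Rs) := by
  refine tabA_of_moves hC hcard hB fun j r hr p hp hdeg => ?_
  obtain ⟨R, hR, hok⟩ := recsOK_get h hr
  unfold recOK at hok
  rw [Bool.and_eq_true, Bool.and_eq_true, Nat.blt_eq, frc2_eq] at hok
  obtain ⟨hlt, hpts, -⟩ := hok
  have hp12 : p < 12 := lt_of_le_of_ne (Fin.le_last p) hp
  rw [dgF_eq hlt hp12] at hdeg
  obtain ⟨c, hc⟩ := ptsA_get hpts (List.mem_range.2 hp12) hdeg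
  rw [cub4_eq hlt] at hc
  obtain ⟨τ, h1, h2, h3⟩ := certA_sound hTA hTB hc
  refine ⟨τ, h1, h2, ?_⟩
  rcases h3 with ⟨e, he, h4⟩ | ⟨e, he, h4⟩
  · refine Or.inr fun ρ h5 h6 h7 => hN ρ h5 h6 ?_
    rw [h7, h4, link_ent]
  · exact Or.inl ⟨e, mem_listOf.2 ⟨j, R, hR, by omega, he⟩, h4⟩

theorem relX_fst (hTA : TA < 2 ^ 165) (h : recsOK TA TB reps Rs = true)
    (hlen : reps.length = Rs.length)
    (hT : TabA reps TA cap (fun _ _ => True) A (listOf Rec.ea 0 Rs)) :
    TabA reps TA cap RelX A (listOf Rec.xa 0 Rs) := by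
  refine tabA_relX hT fun p hp => ?_
  obtain ⟨i, R, h1, h2, h3⟩ := mem_listOf.1 (show (p.1, p.2) ∈ _ from hp)
  unfold Rec.ea at h3
  rw [List.mem_append] at h3
  rcases h3 with h3 | h3
  · exact Or.inl (mem_listOf.2 ⟨i, R, h1, h2, h3⟩)
  · refine Or.inr ?_
    have h4 : i < reps.length := by
      rw [hlen]
      exact (List.getElem?_eq_some_iff.1 h1).1
    obtain ⟨R', h5, h6⟩ := recsOK_get h (List.getElem?_eq_getElem h4)
    rw [h1, Option.some.injEq] at h5
    subst h5
    unfold recOK at h6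
    rw [Bool.and_eq_true, Bool.and_eq_true, Bool.and_eq_true] at h6
    exact witA_get hTA h6.2.2.1 h3

theorem relX_snd (hTB : TB < 2 ^ 165) (h : recsOK TA TB reps Rs = true)
    (hlen : reps.length = Rs.length)
    (hT : TabA reps TB cap (fun _ _ => True) B (listOf Rec.eb 0 Rs)) :
    TabA reps TB cap RelX B (listOf Rec.xb 0 Rs) := by
  refine tabA_relX hT fun p hp => ?_
  obtain ⟨i, R, h1, h2, h3⟩ := mem_listOf.1 (show (p.1, p.2) ∈ _ from hp)
  unfold Rec.eb at h3
  rw [List.mem_append] at h3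
  rcases h3 with h3 | h3
  · exact Or.inl (mem_listOf.2 ⟨i, R, h1, h2, h3⟩)
  · refine Or.inr ?_
    have h4 : i < reps.length := by
      rw [hlen]
      exact (List.getElem?_eq_some_iff.1 h1).1
    obtain ⟨R', h5, h6⟩ := recsOK_get h (List.getElem?_eq_getElem h4)
    rw [h1, Option.some.injEq] at h5
    subst h5
    unfold recOK at h6
    rw [Bool.and_eq_true, Bool.and_eq_true, Bool.and_eq_true] at h6
    exact witA_get hTB h6.2.2.2 h3

end main

end Pool.Agent.Helper44.TY
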